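import Pool.Agent.Y574.AG.Ent

/-!
# The averages over all conjugates: sets and entropies
-/

set_option autoImplicit false
set_option linter.unusedSectionVars false

open Finset
open scoped Classical

namespace Pool.Agent.Y574.AG

open Pool.Agent.W904.AK Pool.Agent.TH408.GR Pool.Agent.TH408.GR.Asm

section gen

variable {G : Type} [Group G] [Fintype G]

/-- The law of `X g⁻¹ Y g`, where `X`, `Y` are independent with the laws `μ`, `ν`. -/
noncomputable def conv (μ ν : G → ℝ) (g w : G) : ℝ :=
  ∑ x, ∑ y, if x * (g⁻¹ * y * g) = w then μ x * ν y else 0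

theorem eff_eq {μ ν : G → ℝ} (hμ : IsLaw μ) (hν : IsLaw ν) :
    eff μ (Model.pure ν hν) = ∑ g : G, unif G g * H (pr μ ν) (fun z => ((), z.1 * g * z.2)) -
      H μ (fun x => x) := by
  have hq : IsLaw (pr μ ν) := pr_law hμ hν
  let f : G → G × G → Unit × G := fun g z => ((), z.1 * g * z.2)
  have e1 : eff μ (Model.pure ν hν) =
      H (pr (unif G) (pr μ ν)) (fun z => (z.1, f z.1 z.2)) -
        H (pr (unif G) (pr μ ν)) (fun z => (z.1, ())) - H μ (fun x => x) := rfl
  have e2 := H_dis (unif_law G) hq f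
  have e3 := H_dis (unif_law G) hq (fun (_ : G) (_ : G × G) => ())
  simp only [H_const hq, mul_zero, Finset.sum_const_zero, add_zero] at e3
  rw [e2, e3] at e1
  rw [e1]
  ring

/-- the entropy in terms of the law of `X g Y g⁻¹` -/
theorem H_conv (μ ν : G → ℝ) (g : G) :
    H (pr μ ν) (fun z => ((), z.1 * g * z.2)) = ∑ w, Real.negMulLog (conv μ ν g⁻¹ w) := by
  have h1 : ∀ w : G, im (pr μ ν) (fun z : G × G => ((), z.1 * g * z.2)) ((), w) =
      conv μ ν g⁻¹ (w * g⁻¹) := by
    intro w
    unfold im conv pr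
    rw [Fintype.sum_prod_type]
    refine Finset.sum_congr rfl fun x _ => Finset.sum_congr rfl fun y _ => ?_
    have h2 : (((), x * g * y) : Unit × G) = ((), w) ↔ x * (g⁻¹⁻¹ * y * g⁻¹) = w * g⁻¹ := by
      rw [Prod.mk.injEq, inv_inv]
      constructor
      · rintro ⟨_, h⟩
        rw [← h]
        group
      · intro h
        refine ⟨rfl, ?_⟩
        have h3 : x * g * y * g⁻¹ = w * g⁻¹ := by
          rw [← h]
          group
        exact mul_right_cancel h3
    by_cases h : x * (g⁻¹⁻¹ * y * g⁻¹) = w * g⁻¹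
    · rw [if_pos (h2.2 h), if_pos h]
    · rw [if_neg (fun h' => h (h2.1 h')), if_neg h]
  unfold H
  simp only [h1]
  have h3 : ∀ w : G, Real.negMulLog (conv μ ν g⁻¹ w) = ∑ x, ∑ y,
      if x * (g⁻¹⁻¹ * y * g⁻¹) = w then μ x * ν y * -Real.log (conv μ ν g⁻¹ w) else 0 := by
    intro w
    have h4 : Real.negMulLog (conv μ ν g⁻¹ w) =
        conv μ ν g⁻¹ w * -Real.log (conv μ ν g⁻¹ w) := by
      unfold Real.negMulLog
      ring
    rw [h4]
    nth_rewrite 1 [conv]
    rw [Finset.sum_mul]
    refine Finset.sum_congr rfl fun x _ => ?_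
    rw [Finset.sum_mul]
    refine Finset.sum_congr rfl fun y _ => ?_
    rw [ite_mul, zero_mul]
  simp only [h3]
  rw [Finset.sum_comm, Fintype.sum_prod_type]
  refine Finset.sum_congr rfl fun x _ => ?_
  rw [Finset.sum_comm]
  refine Finset.sum_congr rfl fun y _ => ?_
  rw [Finset.sum_ite_eq, if_pos (Finset.mem_univ _)]
  unfold pr
  simp only
  have h5 : x * g * y * g⁻¹ = x * (g⁻¹⁻¹ * y * g⁻¹) := by group
  rw [h5]

/-- the Shannon entropy of a law -/
theorem H_id (μ : G → ℝ) : H μ (fun x => x) = ∑ x, Real.negMulLog (μ x) := by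
  unfold H
  refine Finset.sum_congr rfl fun x _ => ?_
  have h1 : im μ (fun x => x) x = μ x := by
    simp [im]
  rw [h1]
  unfold Real.negMulLog
  ring

theorem eff_conv {μ ν : G → ℝ} (hμ : IsLaw μ) (hν : IsLaw ν) :
    ∑ g : G, ∑ w, Real.negMulLog (conv μ ν g w) =
      Fintype.card G * (eff μ (Model.pure ν hν) + ∑ x, Real.negMulLog (μ x)) := by
  have hGc : (0 : ℝ) < Fintype.card G := by exact_mod_cast Fintype.card_pos
  rw [eff_eq hμ hν, H_id]
  simp only [H_conv]
  rw [← Equiv.sum_comp (Equiv.inv G) (fun g => ∑ w, Real.negMulLog (conv μ ν g w))]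
  simp only [Equiv.inv_apply]
  unfold unif
  rw [← Finset.mul_sum]
  field_simp
  ring

/-- the average of the logarithms of the cardinalities of the product sets -/
theorem avg_sets (A B : Finset G) (hA : A.Nonempty) (hB : B.Nonempty) :
    (Fintype.card G : ℝ) * (Real.log B.card +
      eff (CARD.us B) (Model.pure (CARD.us A) (CARD.us_law A hA))) ≤
      ∑ g : G, Real.log ((bag B A g).card : ℝ) := by
  have hν := CARD.us_law A hA
  have hμ := CARD.us_law B hB
  have hGc : (0 : ℝ) < Fintype.card G := by exact_mod_cast Fintype.card_pos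
  have hq : IsLaw (pr (CARD.us B) (CARD.us A)) := pr_law hμ hν
  rw [eff_eq hμ hν, CARD.H_us B hB, ← Equiv.sum_comp (Equiv.inv G)
    (fun g => Real.log ((bag B A g).card : ℝ))]
  simp only [Equiv.inv_apply]
  have h1 : (Fintype.card G : ℝ) * (Real.log B.card + (∑ g : G, unif G g *
      H (pr (CARD.us B) (CARD.us A)) (fun z => ((), z.1 * g * z.2)) - Real.log B.card)) =
      ∑ g : G, H (pr (CARD.us B) (CARD.us A)) (fun z => ((), z.1 * g * z.2)) := by
    unfold unif
    rw [← Finset.mul_sum]
    field_simp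
    ring
  rw [h1]
  refine Finset.sum_le_sum fun g _ => ?_
  let f : G → G × G → Unit × G := fun g z => ((), z.1 * g * z.2)
  let S : Finset (Unit × G) := (B ×ˢ A).image (f g)
  have hS : ∀ z : G × G, pr (CARD.us B) (CARD.us A) z ≠ 0 → f g z ∈ S := by
    intro z hz
    unfold pr at hz
    have h1 := CARD.us_mem (left_ne_zero_of_mul hz)
    have h2 := CARD.us_mem (right_ne_zero_of_mul hz)
    exact Finset.mem_image_of_mem _ (Finset.mem_product.2 ⟨h1, h2⟩)
  have e5 := H_le_log_card hq (f g) S hS
  have hSne : S.Nonempty := (hB.product hA).image _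
  have hSc : (0 : ℝ) < S.card := by exact_mod_cast Finset.card_pos.2 hSne
  have e6 : S.card ≤ (bag B A g⁻¹).card := by
    refine Finset.card_le_card_of_injOn (fun x => x.2 * g⁻¹) ?_ ?_
    · intro x hx
      obtain ⟨z, hz, rfl⟩ := Finset.mem_image.1 hx
      unfold bag
      refine Finset.mem_coe.2 (Finset.mem_image.2 ⟨z, hz, ?_⟩)
      change z.1 * (g⁻¹⁻¹ * z.2 * g⁻¹) = z.1 * g * z.2 * g⁻¹
      rw [inv_inv]
      group
    · intro x _ y _ hxy
      have : x.2 = y.2 := mul_right_cancel hxy
      exact Prod.ext rfl this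
  exact e5.trans (Real.log_le_log hSc (by exact_mod_cast e6))

theorem card_bag_le (A B : Finset G) (g : G) : (bag B A g).card ≤ B.card * A.card := by
  unfold bag
  refine Finset.card_image_le.trans ?_
  rw [Finset.card_product]

theorem le_card_bag (A B : Finset G) (hA : A.Nonempty) (g : G) : B.card ≤ (bag B A g).card := by
  obtain ⟨a, ha⟩ := hA
  refine Finset.card_le_card_of_injOn (fun b => b * (g⁻¹ * a * g)) ?_ ?_
  · intro b hb
    unfold bag
    exact Finset.mem_coe.2 (Finset.mem_image.2 ⟨(b, a), Finset.mem_product.2 ⟨hb, ha⟩, rfl⟩)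
  · intro x _ y _ hxy
    exact mul_right_cancel hxy

/-- from the mean of the logarithms to a positive proportion -/
theorem proportion (A B : Finset G) (hA : A.Nonempty) (hB : B.Nonempty) {ε : ℝ} (hε : 0 < ε)
    (hε1 : ε ≤ 1)
    (h : (Fintype.card G : ℝ) * (Real.log B.card + ε * Real.log A.card) ≤
      ∑ g : G, Real.log ((bag B A g).card : ℝ)) :
    ε / 2 * Fintype.card G ≤ ((univ.filter fun g : G => (B.card : ℝ) * (A.card : ℝ) ^ (ε / 2) ≤
      ((bag B A g).card : ℝ)).card : ℝ) := by
  have hAc : (0 : ℝ) < A.card := by exact_mod_cast hA.card_pos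
  have hBc : (0 : ℝ) < B.card := by exact_mod_cast hB.card_pos
  have hA1 : (1 : ℝ) ≤ A.card := by exact_mod_cast hA.card_pos
  have hG : (0 : ℝ) < Fintype.card G := by exact_mod_cast Fintype.card_pos
  have hbag : ∀ g : G, (0 : ℝ) < ((bag B A g).card : ℝ) := fun g => by
    have := le_card_bag A B hA g
    exact hBc.trans_le (by exact_mod_cast this)
  set T := univ.filter fun g : G => (B.card : ℝ) * (A.card : ℝ) ^ (ε / 2) ≤
      ((bag B A g).card : ℝ) with hT
  rcases eq_or_lt_of_le hA1 with h1 | h1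
  · -- one element
    have h2 : T = univ := by
      rw [hT, Finset.filter_true_of_mem]
      intro g _
      rw [← h1, Real.one_rpow, mul_one]
      exact_mod_cast le_card_bag A B hA g
    rw [h2, Finset.card_univ]
    have : ε / 2 * (Fintype.card G : ℝ) ≤ 1 * Fintype.card G := by gcongr; linarith
    linarith
  have hla : 0 < Real.log A.card := Real.log_pos h1
  have hT1 : ∀ g ∈ T, Real.log ((bag B A g).card : ℝ) ≤ Real.log B.card + Real.log A.card := by
    intro g _
    rw [← Real.log_mul hBc.ne' hAc.ne']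
    exact Real.log_le_log (hbag g) (by exact_mod_cast card_bag_le A B g)
  have hT2 : ∀ g ∈ univ \ T, Real.log ((bag B A g).card : ℝ) ≤
      Real.log B.card + ε / 2 * Real.log A.card := by
    intro g hg
    have h2 : ¬ (B.card : ℝ) * (A.card : ℝ) ^ (ε / 2) ≤ ((bag B A g).card : ℝ) := by
      intro h3
      exact (Finset.mem_sdiff.1 hg).2 (Finset.mem_filter.2 ⟨Finset.mem_univ _, h3⟩)
    have h3 := Real.log_le_log (hbag g) (not_le.1 h2).le
    rwa [Real.log_mul hBc.ne' (Real.rpow_pos_of_pos hAc _).ne', Real.log_rpow hAc] at h3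
  have h2 : ∑ g : G, Real.log ((bag B A g).card : ℝ) ≤
      T.card * (Real.log B.card + Real.log A.card) +
        (Fintype.card G - T.card) * (Real.log B.card + ε / 2 * Real.log A.card) := by
    rw [← Finset.sum_sdiff (Finset.subset_univ T), add_comm]
    have h3 := Finset.sum_le_card_nsmul T _ _ hT1
    have h4 := Finset.sum_le_card_nsmul (univ \ T) _ _ hT2
    rw [nsmul_eq_mul] at h3 h4
    have h5 : ((univ \ T).card : ℝ) = Fintype.card G - T.card := by
      rw [Finset.card_sdiff_of_subset (Finset.subset_univ T), Finset.card_univ,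
        Nat.cast_sub (Finset.card_le_univ T)]
    rw [h5] at h4
    exact add_le_add h3 h4
  have h3 : (Fintype.card G : ℝ) * (ε / 2) * Real.log A.card ≤
      (T.card : ℝ) * (1 - ε / 2) * Real.log A.card := by
    have h4 := h.trans h2
    linarith
  have h4 := le_of_mul_le_mul_right h3 hla
  have h5 : (T.card : ℝ) * (1 - ε / 2) ≤ T.card * 1 := by
    have : (0 : ℝ) ≤ T.card := Nat.cast_nonneg _
    gcongr
    linarith
  linarith

end gen

/-- **The geometric mean.** -/
theorem geo (δ : ℝ) (hδ : 0 < δ) : ∃ ε : ℝ, 0 < ε ∧ ε ≤ 1 ∧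
    ∀ n : ℕ, 5 ≤ n → ∀ A B : Finset (alternatingGroup (Fin n)), A.Nonempty → B.Nonempty →
      (B.card : ℝ) ≤ (Fintype.card (alternatingGroup (Fin n)) : ℝ) ^ (1 - δ) →
      (Fintype.card (alternatingGroup (Fin n)) : ℝ) * (Real.log B.card + ε * Real.log A.card) ≤
        ∑ g : alternatingGroup (Fin n), Real.log ((bag B A g).card : ℝ) := by
  set δ' := min δ 1 with hδ'
  have hδ0 : 0 < δ' := lt_min hδ one_pos
  have hδ1 : δ' ≤ 1 := min_le_right _ _
  obtain ⟨ε₁, hε₁, hbig⟩ := ent δ' hδ0 hδ1
  obtain ⟨c, hc, hsmall⟩ := SMALL.tSMALL ⌈Real.exp (40 / δ')⌉₊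
  set N₀ := ⌈Real.exp (40 / δ')⌉₊ with hN₀
  have hf0 : (0 : ℝ) < (N₀.factorial : ℝ) := by exact_mod_cast N₀.factorial_pos
  refine ⟨min 1 (min ε₁ (c / N₀.factorial)), lt_min one_pos (lt_min hε₁ (by positivity)),
    min_le_left _ _, ?_⟩
  intro n hn A B hA hB hBc
  have hA1 : (1 : ℝ) ≤ A.card := by exact_mod_cast hA.card_pos
  have hlA : 0 ≤ Real.log A.card := Real.log_nonneg hA1
  have hB0 : (0 : ℝ) < B.card := by exact_mod_cast hB.card_pos
  have hG2 : 2 ≤ Fintype.card (alternatingGroup (Fin n)) := by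
    have h1 := card_alt n (by omega)
    have h2 : (5 : ℕ) ≤ Nat.factorial n := le_trans hn (Nat.self_le_factorial n)
    have h3 : 2 * Fintype.card (alternatingGroup (Fin n)) = Nat.factorial n := by
      exact_mod_cast h1
    omega
  have hG1 : (1 : ℝ) < Fintype.card (alternatingGroup (Fin n)) := by
    have : 1 < Fintype.card (alternatingGroup (Fin n)) := by omega
    exact_mod_cast this
  have hB' : (B.card : ℝ) ≤ (Fintype.card (alternatingGroup (Fin n)) : ℝ) ^ (1 - δ') :=
    hBc.trans (Real.rpow_le_rpow_of_exponent_le hG1.le (by linarith [min_le_left δ 1]))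
  rcases Nat.lt_or_ge N₀ n with hlt | hge
  · have hlog : 40 / δ' ≤ Real.log n := by
      have h1 : Real.exp (40 / δ') ≤ n := (Nat.le_ceil _).trans (by exact_mod_cast hlt.le)
      have h2 := Real.log_le_log (Real.exp_pos _) h1
      rwa [Real.log_exp] at h2
    have hν := CARD.us_law A hA
    have hμ := CARD.us_law B hB
    have hD : H (CARD.us B) (fun x => x) ≤ (1 - δ') * LA n := by
      rw [CARD.H_us B hB]
      have h5 := Real.log_le_log hB0 hB'
      rwa [Real.log_rpow (by linarith)] at h5
    have h1 := hbig n hlog (CARD.us B) (CARD.us A) hμ hν hD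
    have h2 : Real.log A.card ≤ -Real.log (∑ x, CARD.us A x ^ 2) := by
      have h3 := CARD.sq_us A hA
      have h4 : 0 < ∑ x, CARD.us A x ^ 2 := by
        obtain ⟨a, ha⟩ := hA
        refine Finset.sum_pos' (fun x _ => sq_nonneg _) ⟨a, Finset.mem_univ a, ?_⟩
        have h5 : CARD.us A a = 1 / (A.card : ℝ) := if_pos ha
        rw [h5]
        positivity
      have h5 := Real.log_le_log h4 h3
      rw [one_div, Real.log_inv] at h5
      linarith
    have h3 := avg_sets A B hA hB
    refine le_trans ?_ h3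
    have h4 : min 1 (min ε₁ (c / N₀.factorial)) * Real.log A.card ≤
        eff (CARD.us B) (Model.pure (CARD.us A) (CARD.us_law A hA)) := by
      refine le_trans ?_ h1
      refine le_trans (mul_le_mul_of_nonneg_right ((min_le_right _ _).trans (min_le_left _ _))
        hlA) ?_
      exact mul_le_mul_of_nonneg_left h2 hε₁.le
    have hG0 : (0 : ℝ) ≤ Fintype.card (alternatingGroup (Fin n)) := by linarith
    gcongr
  · have hBu : B ≠ univ := by
      intro h
      rw [h, Finset.card_univ] at hB'
      have h1 : (Fintype.card (alternatingGroup (Fin n)) : ℝ) ^ (1 - δ') <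
          (Fintype.card (alternatingGroup (Fin n)) : ℝ) ^ (1 : ℝ) :=
        Real.rpow_lt_rpow_of_exponent_lt hG1 (by linarith)
      rw [Real.rpow_one] at h1
      linarith
    obtain ⟨g₀, hg₀⟩ := hsmall n hn hge A B hA hBu
    have hA0 : (0 : ℝ) < A.card := by linarith
    have h1 : Real.log B.card + c * Real.log A.card ≤ Real.log ((bag B A g₀).card : ℝ) := by
      have h2 := Real.log_le_log (mul_pos hB0 (Real.rpow_pos_of_pos hA0 c)) hg₀
      rwa [Real.log_mul hB0.ne' (Real.rpow_pos_of_pos hA0 _).ne', Real.log_rpow hA0] at h2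
    have h2 : ∀ g, Real.log B.card ≤ Real.log ((bag B A g).card : ℝ) := fun g =>
      Real.log_le_log hB0 (by exact_mod_cast le_card_bag A B hA g)
    have h3 : (Fintype.card (alternatingGroup (Fin n)) : ℝ) * Real.log B.card +
        c * Real.log A.card ≤ ∑ g : alternatingGroup (Fin n),
          Real.log ((bag B A g).card : ℝ) := by
      rw [← Finset.add_sum_erase _ _ (Finset.mem_univ g₀)]
      have h4 := Finset.card_nsmul_le_sum (univ.erase g₀)
        (fun g => Real.log ((bag B A g).card : ℝ)) (Real.log B.card) (fun g _ => h2 g)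
      rw [nsmul_eq_mul, Finset.card_erase_of_mem (Finset.mem_univ _), Finset.card_univ,
        Nat.cast_sub (by omega), Nat.cast_one] at h4
      linarith
    refine le_trans ?_ h3
    have hGN : (Fintype.card (alternatingGroup (Fin n)) : ℝ) ≤ N₀.factorial := by
      have h5 := card_alt n (by omega)
      have h6 : (n.factorial : ℝ) ≤ N₀.factorial := by exact_mod_cast Nat.factorial_le hge
      linarith
    have h4 : (Fintype.card (alternatingGroup (Fin n)) : ℝ) *
        min 1 (min ε₁ (c / N₀.factorial)) ≤ c := by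
      calc (Fintype.card (alternatingGroup (Fin n)) : ℝ) * min 1 (min ε₁ (c / N₀.factorial)) ≤
            N₀.factorial * (c / N₀.factorial) := by
            refine mul_le_mul hGN ((min_le_right _ _).trans (min_le_right _ _)) ?_ hf0.le
            exact le_min zero_le_one (le_min hε₁.le (by positivity))
        _ = c := by field_simp
    have h5 := mul_le_mul_of_nonneg_right h4 hlA
    linarith

end Pool.Agent.Y574.AG
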