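import Pool.Agent.TH408.GR.All

/-!
# Asymmetric growth on the average, for random elements with arbitrary distributions
-/

set_option autoImplicit false
set_option linter.unusedSectionVars false

open Finset
open scoped Classical

namespace Pool.Agent.Y574.AG

open Pool.Agent.W904.AK Pool.Agent.TH408.GR Pool.Agent.TH408.GR.Asm

/-- Growth for all laws, in terms of the collision probability. -/
theorem allR (hCLS : S_CLS) (hCOLL : S_COLL) (hAMP : S_AMP) (δ c : ℝ) (hδ : 0 < δ) (hδ1 : δ ≤ 1)
    (hc : 0 < c) (n : ℕ) (hn : 40 / δ ≤ Real.log n) (μ : alternatingGroup (Fin n) → ℝ)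
    (hμ : IsLaw μ)
    (hbig : ∀ (ν : alternatingGroup (Fin n) → ℝ) (hν : IsLaw ν),
      28 / 10 * Real.log n ≤ H ν (fun x => x) →
        c * H ν (fun x => x) ≤ eff μ (Model.pure ν hν))
    (ν : alternatingGroup (Fin n) → ℝ) (hν : IsLaw ν) (a : ℝ) (ha : 1 ≤ a)
    (hH : Real.log a ≤ H ν (fun x => x)) (hς : ∑ x, ν x ^ 2 ≤ 1 / (a : ℝ)) :
    c / 5 * Real.log a ≤ eff μ (Model.pure ν hν) := by
  have hn40 : 40 ≤ Real.log n := by
    refine le_trans ?_ hn
    rw [le_div_iff₀ hδ]
    nlinarith
  have hn20 : 20 ≤ Real.log n := by linarith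
  have hnn := n_big hn20
  have hn' : (10000 : ℝ) ≤ n := by exact_mod_cast hnn
  have hn0 : (0 : ℝ) < n := by linarith
  have heff0 := eff_nonneg μ hμ (Model.pure ν hν)
  have ha0 : (0 : ℝ) < a := by linarith
  rcases eq_or_lt_of_le ha with ha2 | ha2
  · rw [← ha2]
    simpa using heff0
  have hla : 0 < Real.log a := Real.log_pos ha2
  rcases le_or_gt (3 * Real.log n) (Real.log a) with h3 | h3
  · have h1 := hbig ν hν (by linarith)
    have h2 : c / 5 * Real.log a ≤ c * Real.log a :=
      mul_le_mul_of_nonneg_right (by linarith) hla.le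
    have h2' : c * Real.log a ≤ c * H ν (fun x => x) := mul_le_mul_of_nonneg_left hH hc.le
    linarith
  -- amplification
  set F := eff μ (Model.pure ν hν) with hF
  obtain ⟨M, hM1, hM2⟩ : ∃ M : ℕ, 3 * Real.log n / Real.log a ≤ M ∧
      (M : ℝ) ≤ 6 * Real.log n / Real.log a := by
    refine ⟨⌈3 * Real.log n / Real.log a⌉₊, Nat.le_ceil _, ?_⟩
    have h1 := Nat.ceil_lt_add_one (show 0 ≤ 3 * Real.log n / Real.log a by positivity)
    have h2 : 1 ≤ 3 * Real.log n / Real.log a := by
      rw [le_div_iff₀ hla]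
      linarith
    have h4 : 6 * Real.log n / Real.log a = 3 * Real.log n / Real.log a +
        3 * Real.log n / Real.log a := by ring
    linarith
  have hn3 : (0 : ℝ) < (n : ℝ) ^ 3 := by positivity
  have hpow : (1 / (a : ℝ)) ^ M ≤ 1 / (n : ℝ) ^ 3 := by
    rw [one_div_pow]
    apply one_div_le_one_div_of_le hn3
    rw [← Real.log_le_log_iff hn3 (by positivity), Real.log_pow, Real.log_pow]
    rw [div_le_iff₀ hla] at hM1
    push_cast
    linarith
  have hlaw : ∀ h : Rs (alternatingGroup (Fin n)) M, IsLaw (lawM ν M h) := fun h =>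
    im_law (pR_law hν M) (PPh M h)
  have hcoll := hCOLL (alternatingGroup (Fin n)) ν (1000 / (n : ℝ) ^ 3) (1 / (a : ℝ)) hν
    (by positivity) hς (fun d w hd => by convert hCLS n (by omega) d w hd) M
  have hcoll2 : ∑ h : Rs (alternatingGroup (Fin n)) M, pR (unif (alternatingGroup (Fin n))) M h *
      ∑ x, lawM ν M h x ^ 2 ≤ 1001 / (n : ℝ) ^ 3 := by
    have : (1001 : ℝ) / (n : ℝ) ^ 3 = 1 / (n : ℝ) ^ 3 + 1000 / (n : ℝ) ^ 3 := by ring
    linarith
  have hamp := hAMP (alternatingGroup (Fin n)) μ ν hμ hν M hlaw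
  rw [← hF] at hamp
  have hq := pR_law (unif_law (alternatingGroup (Fin n))) M
  have hpt : ∀ h : Rs (alternatingGroup (Fin n)) M,
      c * (28 / 10 * Real.log n) * (1 - (n : ℝ) ^ 3 / 2002 * ∑ x, lawM ν M h x ^ 2) ≤
      eff μ (Model.pure (lawM ν M h) (hlaw h)) := by
    intro h
    have h0 : 0 ≤ ∑ x, lawM ν M h x ^ 2 := Finset.sum_nonneg fun x _ => sq_nonneg _
    rcases le_or_gt (∑ x, lawM ν M h x ^ 2) (2002 / (n : ℝ) ^ 3) with h1 | h1
    · have h2 := H_ge_collision _ (hlaw h)
      have h3 : 28 / 10 * Real.log n ≤ H (lawM ν M h) (fun x => x) := by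
        refine le_trans ?_ h2
        rcases eq_or_lt_of_le h0 with h4 | h4
        · exfalso
          have h5 : ∀ x, lawM ν M h x = 0 := by
            intro x
            have := (Finset.sum_eq_zero_iff_of_nonneg
              (fun x _ => sq_nonneg (lawM ν M h x))).1 h4.symm x (Finset.mem_univ x)
            exact pow_eq_zero_iff two_ne_zero |>.1 this
          have h6 := (hlaw h).total
          rw [Finset.sum_eq_zero fun x _ => h5 x] at h6
          exact zero_ne_one h6
        · have h5 := Real.log_le_log h4 h1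
          rw [Real.log_div (by norm_num) hn3.ne', Real.log_pow] at h5
          have h6 : Real.log 2002 ≤ 11 * Real.log 2 := by
            have h7 : Real.log 2002 ≤ Real.log ((2 : ℝ) ^ 11) :=
              Real.log_le_log (by norm_num) (by norm_num)
            rw [Real.log_pow] at h7
            push_cast at h7
            exact h7
          have h7 := Real.log_two_lt_d9
          push_cast at h5
          linarith
      have h4 := hbig (lawM ν M h) (hlaw h) h3
      have h5 : c * (28 / 10 * Real.log n) *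
          (1 - (n : ℝ) ^ 3 / 2002 * ∑ x, lawM ν M h x ^ 2) ≤ c * (28 / 10 * Real.log n) * 1 := by
        apply mul_le_mul_of_nonneg_left _ (by positivity)
        have : 0 ≤ (n : ℝ) ^ 3 / 2002 * ∑ x, lawM ν M h x ^ 2 := by positivity
        linarith
      have h6 : c * (28 / 10 * Real.log n) ≤ c * H (lawM ν M h) (fun x => x) :=
        mul_le_mul_of_nonneg_left h3 hc.le
      linarith
    · have h2 := eff_nonneg μ hμ (Model.pure (lawM ν M h) (hlaw h))
      refine le_trans ?_ h2
      apply mul_nonpos_of_nonneg_of_nonpos (by positivity)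
      rw [div_lt_iff₀ hn3] at h1
      have : (n : ℝ) ^ 3 / 2002 * ∑ x, lawM ν M h x ^ 2 =
        ((∑ x, lawM ν M h x ^ 2) * (n : ℝ) ^ 3) / 2002 := by ring
      rw [this]
      have : 1 < ((∑ x, lawM ν M h x ^ 2) * (n : ℝ) ^ 3) / 2002 := by
        rw [lt_div_iff₀ (by norm_num)]
        linarith
      linarith
  have hsum : c * (14 / 10 * Real.log n) ≤ M * F := by
    have h1 : ∑ h : Rs (alternatingGroup (Fin n)) M,
        pR (unif (alternatingGroup (Fin n))) M h * (c * (28 / 10 * Real.log n) *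
          (1 - (n : ℝ) ^ 3 / 2002 * ∑ x, lawM ν M h x ^ 2)) ≤ M * F := by
      refine le_trans (Finset.sum_le_sum fun h _ => ?_) hamp
      exact mul_le_mul_of_nonneg_left (hpt h) (hq.nonneg h)
    have h2 : ∑ h : Rs (alternatingGroup (Fin n)) M,
        pR (unif (alternatingGroup (Fin n))) M h * (c * (28 / 10 * Real.log n) *
          (1 - (n : ℝ) ^ 3 / 2002 * ∑ x, lawM ν M h x ^ 2)) =
        c * (28 / 10 * Real.log n) * (1 - (n : ℝ) ^ 3 / 2002 *
          ∑ h : Rs (alternatingGroup (Fin n)) M, pR (unif (alternatingGroup (Fin n))) M h *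
            ∑ x, lawM ν M h x ^ 2) := by
      rw [Finset.mul_sum, mul_sub, mul_one, Finset.mul_sum]
      have h3 : ∀ h : Rs (alternatingGroup (Fin n)) M,
          pR (unif (alternatingGroup (Fin n))) M h * (c * (28 / 10 * Real.log n) *
          (1 - (n : ℝ) ^ 3 / 2002 * ∑ x, lawM ν M h x ^ 2)) =
          pR (unif (alternatingGroup (Fin n))) M h * (c * (28 / 10 * Real.log n)) -
            c * (28 / 10 * Real.log n) * ((n : ℝ) ^ 3 / 2002 *
              (pR (unif (alternatingGroup (Fin n))) M h * ∑ x, lawM ν M h x ^ 2)) := by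
        intro h
        ring
      rw [Finset.sum_congr rfl fun h _ => h3 h, Finset.sum_sub_distrib, ← Finset.sum_mul,
        hq.total, one_mul]
    rw [h2] at h1
    refine le_trans ?_ h1
    have h3 : (n : ℝ) ^ 3 / 2002 * ∑ h : Rs (alternatingGroup (Fin n)) M,
        pR (unif (alternatingGroup (Fin n))) M h * ∑ x, lawM ν M h x ^ 2 ≤ 1 / 2 := by
      calc _ ≤ (n : ℝ) ^ 3 / 2002 * (1001 / (n : ℝ) ^ 3) :=
            mul_le_mul_of_nonneg_left hcoll2 (by positivity)
        _ = 1 / 2 := by
            field_simp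
            norm_num
    have h4 : c * (14 / 10 * Real.log n) = c * (28 / 10 * Real.log n) * (1 / 2) := by ring
    rw [h4]
    apply mul_le_mul_of_nonneg_left _ (by positivity)
    linarith
  have h5 : (M : ℝ) * F ≤ 6 * Real.log n / Real.log a * F :=
    mul_le_mul_of_nonneg_right hM2 heff0
  have h6 : c * (14 / 10 * Real.log n) ≤ 6 * Real.log n / Real.log a * F := hsum.trans h5
  have h7 : c * (14 / 10) * Real.log a ≤ 6 * F := by
    have h8 : 6 * Real.log n / Real.log a * F = (6 * F / Real.log a) * Real.log n := by ring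
    have h9 : c * (14 / 10 * Real.log n) = (c * (14 / 10)) * Real.log n := by ring
    rw [h8, h9] at h6
    have h10 := le_of_mul_le_mul_right h6 (by linarith)
    rwa [le_div_iff₀ hla] at h10
  have h8 : 0 < c * Real.log a := by positivity
  linarith

/-- The entropy form of asymmetric growth, for all laws. -/
theorem ent (δ : ℝ) (hδ : 0 < δ) (hδ1 : δ ≤ 1) : ∃ ε : ℝ, 0 < ε ∧
    ∀ n : ℕ, 40 / δ ≤ Real.log n → ∀ (μ ν : alternatingGroup (Fin n) → ℝ) (_ : IsLaw μ)
      (hν : IsLaw ν), H μ (fun x => x) ≤ (1 - δ) * LA n →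
      ε * -Real.log (∑ x, ν x ^ 2) ≤ eff μ (Model.pure ν hν) := by
  set C : ℝ := (1 + Real.log (10 / δ)) / (155 / 1000) with hCdef
  have hlog0 : 0 ≤ Real.log (10 / δ) := by
    apply Real.log_nonneg
    rw [le_div_iff₀ hδ]
    linarith
  have hC0 : 0 < C := by
    rw [hCdef]
    positivity
  have hC : Real.exp 1 * Real.exp (-(155 / 1000 * C)) ≤ δ / 10 := by
    rw [hCdef, mul_div_cancel₀ _ (by norm_num), ← Real.exp_add,
      show (1 : ℝ) + -(1 + Real.log (10 / δ)) = -Real.log (10 / δ) by ring, Real.exp_neg,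
      Real.exp_log (by positivity), inv_div]
  set c := δ / (250 * (C + 1)) with hc
  have hc0 : 0 < c := by positivity
  refine ⟨c / 5, by positivity, ?_⟩
  intro n hn μ ν hμ hν hD
  have hn40 : 40 ≤ Real.log n := by
    refine le_trans ?_ hn
    rw [le_div_iff₀ hδ]
    nlinarith
  have hnn := n_big (show 20 ≤ Real.log n by linarith)
  obtain ⟨Ac, hAc⟩ := (alt STAR1.tSTAR1 ALT1.tALT1) n (by omega)
  -- the collision probability
  have hs0 : 0 < ∑ x, ν x ^ 2 := by
    rcases eq_or_lt_of_le (Finset.sum_nonneg fun x (_ : x ∈ univ) => sq_nonneg (ν x)) with h | h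
    · exfalso
      have h5 : ∀ x, ν x = 0 := by
        intro x
        have := (Finset.sum_eq_zero_iff_of_nonneg
          (fun x _ => sq_nonneg (ν x))).1 h.symm x (Finset.mem_univ x)
        exact pow_eq_zero_iff two_ne_zero |>.1 this
      have h6 := hν.total
      rw [Finset.sum_eq_zero fun x _ => h5 x] at h6
      exact zero_ne_one h6
    · exact h
  have hs1 : ∑ x, ν x ^ 2 ≤ 1 := by
    rw [← hν.total]
    refine Finset.sum_le_sum fun x _ => ?_
    have h1 : ν x ≤ 1 := by
      rw [← hν.total]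
      exact Finset.single_le_sum (fun y _ => hν.nonneg y) (Finset.mem_univ x)
    have h2 := hν.nonneg x
    nlinarith
  have h1 := allR tCLS tCOLL Amp.tAMP δ c hδ hδ1 hc0 n hn μ hμ
    (fun ν' hν' hh => big Chain.tCHAIN PT.tPT SV.tSV TAIL.tTAIL TAIL.tMBD tETA JAY.tJAY JAY.tEFF
      δ C hδ hδ1 hC0 hC n hn Ac hAc μ hμ hD ν' hν' hh) ν hν (1 / ∑ x, ν x ^ 2)
    (by rw [le_div_iff₀ hs0]; linarith)
    (by
      rw [one_div, Real.log_inv]
      exact H_ge_collision ν hν)
    (by rw [one_div_one_div])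
  rw [one_div, Real.log_inv] at h1
  exact h1

end Pool.Agent.Y574.AG
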