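import Pool.Agent.Y574.AG.Avg

/-!
# Entropy growth in a fixed finite simple group, by compactness
-/

set_option autoImplicit false
set_option linter.unusedSectionVars false

open Finset
open scoped Classical

namespace Pool.Agent.Y574.AG

open Pool.Agent.W904.AK Pool.Agent.TH408.GR Pool.Agent.TH408.GR.Asm

section gen

variable {G : Type} [Group G] [Fintype G]

/-- the entropy of a law -/
noncomputable def E (μ : G → ℝ) : ℝ := ∑ x, Real.negMulLog (μ x)

/-- the midpoint of two right translates -/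
noncomputable def mid (μ : G → ℝ) (a b w : G) : ℝ := (μ (w * a⁻¹) + μ (w * b⁻¹)) / 2

theorem E_shift (μ : G → ℝ) (a : G) : ∑ w, Real.negMulLog (μ (w * a⁻¹)) = E μ := by
  unfold E
  exact Equiv.sum_comp (Equiv.mulRight a⁻¹) (fun w => Real.negMulLog (μ w))

theorem nml_mid {a b : ℝ} (ha : 0 ≤ a) (hb : 0 ≤ b) :
    (Real.negMulLog a + Real.negMulLog b) / 2 ≤ Real.negMulLog ((a + b) / 2) ∧
    ((Real.negMulLog a + Real.negMulLog b) / 2 = Real.negMulLog ((a + b) / 2) → a = b) := by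
  have e : (a + b) / 2 = 1 / 2 * a + 1 / 2 * b := by ring
  constructor
  · have h := Real.concaveOn_negMulLog.2 (Set.mem_Ici.2 ha) (Set.mem_Ici.2 hb)
      (by norm_num : (0 : ℝ) ≤ 1 / 2) (by norm_num : (0 : ℝ) ≤ 1 / 2) (by norm_num)
    simp only [smul_eq_mul] at h
    rw [e]
    linarith
  · intro h
    by_contra hne
    have h2 := Real.strictConcaveOn_negMulLog.2 (Set.mem_Ici.2 ha) (Set.mem_Ici.2 hb) hne
      (by norm_num : (0 : ℝ) < 1 / 2) (by norm_num : (0 : ℝ) < 1 / 2) (by norm_num)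
    simp only [smul_eq_mul] at h2
    rw [e] at h
    linarith

/-- the total growth for two points -/
noncomputable def TT (y z : G) (μ : G → ℝ) : ℝ :=
  ∑ g : G, (∑ w, Real.negMulLog (mid μ (g⁻¹ * y * g) (g⁻¹ * z * g) w) - E μ)

theorem mid_nonneg (y z : G) {μ : G → ℝ} (h0 : ∀ x, 0 ≤ μ x) :
    0 ≤ ∑ w, Real.negMulLog (mid μ y z w) - E μ := by
  have hsumE : ∑ w, (Real.negMulLog (μ (w * y⁻¹)) + Real.negMulLog (μ (w * z⁻¹))) / 2 = E μ := by
    rw [← Finset.sum_div, Finset.sum_add_distrib, E_shift, E_shift]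
    ring
  rw [← hsumE, sub_nonneg]
  exact Finset.sum_le_sum fun w _ => (nml_mid (h0 _) (h0 _)).1

theorem TT_pos [IsSimpleGroup G] {y z : G} (hyz : y ≠ z) {μ : G → ℝ} (h0 : ∀ x, 0 ≤ μ x)
    (h1 : ∑ x, μ x = 1) (hE : E μ < Real.log (Fintype.card G)) : 0 < TT y z μ := by
  have hsumE : ∀ g : G, ∑ w, (Real.negMulLog (μ (w * (g⁻¹ * y * g)⁻¹)) +
      Real.negMulLog (μ (w * (g⁻¹ * z * g)⁻¹))) / 2 = E μ := by
    intro g
    rw [← Finset.sum_div, Finset.sum_add_distrib, E_shift, E_shift]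
    ring
  have hg : ∀ g : G, 0 ≤ ∑ w, Real.negMulLog (mid μ (g⁻¹ * y * g) (g⁻¹ * z * g) w) - E μ :=
    fun g => mid_nonneg _ _ h0
  rcases (Finset.sum_nonneg fun g (_ : g ∈ univ) => hg g).eq_or_lt with h | h
  · exfalso
    have hg0 := (Finset.sum_eq_zero_iff_of_nonneg (fun g _ => hg g)).1 h.symm
    have hinv : ∀ g w : G, μ (w * (g⁻¹ * y * g)⁻¹) = μ (w * (g⁻¹ * z * g)⁻¹) := by
      intro g w
      have h2 := hg0 g (mem_univ g)
      rw [← hsumE g, sub_eq_zero] at h2
      have h3 := (Finset.sum_eq_sum_iff_of_le (fun w _ => (nml_mid (h0 _) (h0 _)).1)).1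
        h2.symm w (mem_univ w)
      exact (nml_mid (h0 _) (h0 _)).2 h3
    let S : Subgroup G :=
      { carrier := {s | ∀ w, μ (w * s) = μ w}
        mul_mem' := by
          intro s t hs ht w
          rw [← mul_assoc, ht, hs]
        one_mem' := by
          intro w
          rw [mul_one]
        inv_mem' := by
          intro s hs w
          have := hs (w * s⁻¹)
          rw [inv_mul_cancel_right] at this
          exact this.symm }
    have hconj : ∀ g : G, g⁻¹ * (y * z⁻¹) * g ∈ S := by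
      intro g w
      have h2 := hinv g (w * (g⁻¹ * y * g))
      rw [mul_inv_cancel_right] at h2
      rw [h2]
      congr 1
      group
    have hd : y * z⁻¹ ≠ 1 := fun h => hyz (mul_inv_eq_one.1 h)
    have hnc : Subgroup.normalClosure {y * z⁻¹} = (⊤ : Subgroup G) := by
      rcases (Subgroup.normalClosure_normal (s := ({y * z⁻¹} : Set G))).eq_bot_or_eq_top
        with h | h
      · exfalso
        have h1 : y * z⁻¹ ∈ Subgroup.normalClosure ({y * z⁻¹} : Set G) :=
          Subgroup.subset_normalClosure rfl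
        rw [h, Subgroup.mem_bot] at h1
        exact hd h1
      · exact h
    have hS : Subgroup.normalClosure {y * z⁻¹} ≤ S := by
      unfold Subgroup.normalClosure
      rw [Subgroup.closure_le]
      intro x hx
      rw [Group.mem_conjugatesOfSet_iff] at hx
      obtain ⟨y', hy', hc⟩ := hx
      rw [Set.mem_singleton_iff] at hy'
      rw [hy', isConj_iff] at hc
      obtain ⟨c, hc⟩ := hc
      have := hconj c⁻¹
      rw [inv_inv, hc] at this
      exact this
    rw [hnc] at hS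
    have hconst : ∀ x, μ x = μ 1 := by
      intro x
      have h2 := hS (Subgroup.mem_top x) 1
      rwa [one_mul] at h2
    have hN : (0 : ℝ) < Fintype.card G := by exact_mod_cast Fintype.card_pos
    have h3 : μ 1 = 1 / Fintype.card G := by
      rw [Finset.sum_congr rfl fun x _ => hconst x, Finset.sum_const, Finset.card_univ,
        nsmul_eq_mul] at h1
      rw [eq_div_iff hN.ne', mul_comm]
      exact h1
    have h4 : E μ = Real.log (Fintype.card G) := by
      unfold E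
      rw [Finset.sum_congr rfl fun x _ => by rw [hconst x], Finset.sum_const, Finset.card_univ,
        nsmul_eq_mul, h3]
      unfold Real.negMulLog
      rw [one_div, Real.log_inv]
      field_simp
    linarith
  · exact h

theorem E_cont : Continuous (E : (G → ℝ) → ℝ) :=
  continuous_finsetSum _ fun x _ => Real.continuous_negMulLog.comp (continuous_apply x)

theorem TT_cont (y z : G) : Continuous (TT y z) := by
  refine continuous_finsetSum _ fun g _ => (continuous_finsetSum _ fun w _ => ?_).sub E_cont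
  have h1 : Continuous fun μ : G → ℝ =>
      (μ (w * (g⁻¹ * y * g)⁻¹) + μ (w * (g⁻¹ * z * g)⁻¹)) / 2 := by
    fun_prop
  exact Real.continuous_negMulLog.comp h1

theorem exists_c0 [IsSimpleGroup G] {η : ℝ} (hη : η < Real.log (Fintype.card G)) {y z : G}
    (hyz : y ≠ z) : ∃ c : ℝ, 0 < c ∧ ∀ μ : G → ℝ, (∀ x, 0 ≤ μ x) → ∑ x, μ x = 1 → E μ ≤ η →
      c ≤ TT y z μ := by
  let K : Set (G → ℝ) := stdSimplex ℝ G ∩ {μ | E μ ≤ η}
  have hK : IsCompact K := (isCompact_stdSimplex (𝕜 := ℝ) G).inter_right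
    (isClosed_le E_cont continuous_const)
  rcases K.eq_empty_or_nonempty with h | h
  · refine ⟨1, one_pos, fun μ h0 h1 h2 => ?_⟩
    have h3 : μ ∈ K := ⟨⟨h0, h1⟩, h2⟩
    rw [h] at h3
    exact absurd h3 (Set.notMem_empty _)
  · obtain ⟨μ₀, hμ₀, hmin⟩ := hK.exists_isMinOn h (TT_cont y z).continuousOn
    refine ⟨TT y z μ₀, TT_pos hyz hμ₀.1.1 hμ₀.1.2 (lt_of_le_of_lt hμ₀.2 hη),
      fun μ h0 h1 h2 => ?_⟩
    exact hmin (show μ ∈ K from ⟨⟨h0, h1⟩, h2⟩)

theorem exists_c1 [IsSimpleGroup G] {η : ℝ} (hη : η < Real.log (Fintype.card G)) :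
    ∃ c : ℝ, 0 < c ∧ ∀ y z : G, y ≠ z → ∀ μ : G → ℝ, (∀ x, 0 ≤ μ x) → ∑ x, μ x = 1 →
      E μ ≤ η → c ≤ TT y z μ := by
  choose! c hc hcT using fun (p : G × G) (hp : p.1 ≠ p.2) => exists_c0 hη hp
  let c' : G × G → ℝ := fun p => if p.1 ≠ p.2 then c p else 1
  obtain ⟨p₀, hp₀⟩ := Finite.exists_min c'
  refine ⟨c' p₀, ?_, ?_⟩
  · change 0 < if p₀.1 ≠ p₀.2 then c p₀ else 1
    split_ifs with h
    · exact hc p₀ h
    · exact one_pos
  · intro y z hyz μ h0 h1 h2
    have h3 := hp₀ (y, z)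
    have h4 : c' (y, z) = c (y, z) := if_pos hyz
    rw [h4] at h3
    exact h3.trans (hcT (y, z) hyz μ h0 h1 h2)

theorem conv_apply (μ ν : G → ℝ) (g w : G) :
    conv μ ν g w = ∑ y, ν y * μ (w * (g⁻¹ * y * g)⁻¹) := by
  unfold conv
  rw [Finset.sum_comm]
  refine Finset.sum_congr rfl fun y _ => ?_
  have h1 : ∀ x : G, x * (g⁻¹ * y * g) = w ↔ x = w * (g⁻¹ * y * g)⁻¹ :=
    fun x => eq_mul_inv_iff_mul_eq.symm
  simp only [h1]
  rw [Finset.sum_ite_eq', if_pos (mem_univ _), mul_comm]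

theorem pair_bound (μ ν : G → ℝ) (h0 : ∀ x, 0 ≤ μ x) (hν0 : ∀ y, 0 ≤ ν y)
    (hν1 : ∑ y, ν y = 1) {y z : G} (hyz : y ≠ z) {s : ℝ} (hs : 0 ≤ s) (hy : s ≤ ν y)
    (hz : s ≤ ν z) (g : G) :
    2 * s * (∑ w, Real.negMulLog (mid μ (g⁻¹ * y * g) (g⁻¹ * z * g) w) - E μ) ≤
      E (conv μ ν g) - E μ := by
  let r : G → ℝ := fun x => ν x - (if x = y then s else 0) - (if x = z then s else 0)
  have hr0 : ∀ x, 0 ≤ r x := by
    intro x
    change 0 ≤ ν x - (if x = y then s else 0) - (if x = z then s else 0)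
    by_cases h1 : x = y
    · rw [if_pos h1, if_neg (fun h2 => hyz (h1.symm.trans h2)), h1]
      linarith
    · rw [if_neg h1]
      by_cases h2 : x = z
      · rw [if_pos h2, h2]
        linarith
      · rw [if_neg h2]
        linarith [hν0 x]
  have hr1 : ∀ f : G → ℝ, ∑ x, r x * f x = ∑ x, ν x * f x - s * f y - s * f z := by
    intro f
    have h1 : ∀ x, r x * f x = ν x * f x - (if x = y then s * f x else 0) -
        (if x = z then s * f x else 0) := by
      intro x
      change (ν x - (if x = y then s else 0) - (if x = z then s else 0)) * f x = _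
      split_ifs <;> ring
    rw [Finset.sum_congr rfl fun x _ => h1 x, Finset.sum_sub_distrib, Finset.sum_sub_distrib,
      Finset.sum_ite_eq', Finset.sum_ite_eq', if_pos (mem_univ _), if_pos (mem_univ _)]
  have hrs : ∑ x, r x = 1 - 2 * s := by
    have h1 := hr1 (fun _ => 1)
    simp only [mul_one] at h1
    rw [h1, hν1]
    ring
  have hcoord : ∀ w, 2 * s * Real.negMulLog (mid μ (g⁻¹ * y * g) (g⁻¹ * z * g) w) +
      ∑ x, r x * Real.negMulLog (μ (w * (g⁻¹ * x * g)⁻¹)) ≤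
        Real.negMulLog (conv μ ν g w) := by
    intro w
    let wt : Option G → ℝ := fun o => o.elim (2 * s) r
    let p : Option G → ℝ := fun o => o.elim (mid μ (g⁻¹ * y * g) (g⁻¹ * z * g) w)
      (fun x => μ (w * (g⁻¹ * x * g)⁻¹))
    have h1 := Real.concaveOn_negMulLog.le_map_sum (t := (Finset.univ : Finset (Option G)))
      (w := wt) (p := p) (by
        intro o _
        cases o with
        | none => exact mul_nonneg zero_le_two hs
        | some x => exact hr0 x) (by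
        rw [Fintype.sum_option]
        change 2 * s + ∑ x, r x = 1
        rw [hrs]
        ring) (by
        intro o _
        cases o with
        | none =>
          change (0 : ℝ) ≤ (μ _ + μ _) / 2
          linarith [h0 (w * (g⁻¹ * y * g)⁻¹), h0 (w * (g⁻¹ * z * g)⁻¹)]
        | some x => exact h0 _)
    rw [Fintype.sum_option, Fintype.sum_option] at h1
    change 2 * s * Real.negMulLog (mid μ (g⁻¹ * y * g) (g⁻¹ * z * g) w) +
      ∑ x, r x * Real.negMulLog (μ (w * (g⁻¹ * x * g)⁻¹)) ≤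
        Real.negMulLog (2 * s * ((μ (w * (g⁻¹ * y * g)⁻¹) + μ (w * (g⁻¹ * z * g)⁻¹)) / 2) +
          ∑ x, r x * μ (w * (g⁻¹ * x * g)⁻¹)) at h1
    have h2 : 2 * s * ((μ (w * (g⁻¹ * y * g)⁻¹) + μ (w * (g⁻¹ * z * g)⁻¹)) / 2) +
          ∑ x, r x * μ (w * (g⁻¹ * x * g)⁻¹) = conv μ ν g w := by
      rw [conv_apply, hr1 (fun x => μ (w * (g⁻¹ * x * g)⁻¹))]
      ring
    rw [h2] at h1
    exact h1
  have hsum := Finset.sum_le_sum fun w (_ : w ∈ univ) => hcoord w
  rw [Finset.sum_add_distrib, ← Finset.mul_sum, Finset.sum_comm] at hsum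
  have h3 : ∀ x, ∑ w, r x * Real.negMulLog (μ (w * (g⁻¹ * x * g)⁻¹)) = r x * E μ := by
    intro x
    rw [← Finset.mul_sum, E_shift]
  rw [Finset.sum_congr rfl fun x _ => h3 x, ← Finset.sum_mul, hrs] at hsum
  change _ ≤ E (conv μ ν g) at hsum
  linarith

theorem small_ent [IsSimpleGroup G] {η : ℝ} (hη : η < Real.log (Fintype.card G)) :
    ∃ c : ℝ, 0 < c ∧ ∀ μ ν : G → ℝ, IsLaw μ → IsLaw ν → E μ ≤ η →
      Fintype.card G * (E μ + c * -Real.log (∑ x, ν x ^ 2)) ≤ ∑ g : G, E (conv μ ν g) := by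
  obtain ⟨c₁, hc₁, h1⟩ := exists_c1 hη
  have hN : (0 : ℝ) < Fintype.card G := by exact_mod_cast Fintype.card_pos
  set N : ℝ := ((Fintype.card G : ℕ) : ℝ) with hNdef
  refine ⟨c₁ / N ^ 3, by positivity, fun μ ν hμ hν hE => ?_⟩
  obtain ⟨y₀, hy₀⟩ := Finite.exists_max ν
  obtain ⟨x₁, hx₁⟩ := exists_ne y₀
  have : Nonempty {x : G // x ≠ y₀} := ⟨⟨x₁, hx₁⟩⟩
  obtain ⟨⟨y₁, hy₁⟩, hy₁m⟩ := Finite.exists_max (fun x : {x : G // x ≠ y₀} => ν x)
  simp only [Subtype.forall] at hy₁m
  set t := 1 - ν y₀ with ht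
  have hone : 1 ≤ N * ν y₀ := by
    rw [← hν.total]
    calc ∑ x, ν x ≤ ∑ _x : G, ν y₀ := Finset.sum_le_sum fun x _ => hy₀ x
      _ = N * ν y₀ := by rw [Finset.sum_const, Finset.card_univ, nsmul_eq_mul]
  have hν0 : 0 < ν y₀ := by
    by_contra h
    push Not at h
    have := mul_nonpos_of_nonneg_of_nonpos hN.le h
    linarith
  have hle1 : ν y₀ ≤ 1 := by
    rw [← hν.total]
    exact Finset.single_le_sum (fun y _ => hν.nonneg y) (Finset.mem_univ y₀)
  have ht0 : 0 ≤ t := by linarith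
  have htN : t ≤ N * ν y₁ := by
    have h2 : t = ∑ x ∈ univ.erase y₀, ν x := by
      have h3 := Finset.add_sum_erase univ ν (mem_univ y₀)
      rw [hν.total] at h3
      linarith
    rw [h2]
    calc ∑ x ∈ univ.erase y₀, ν x ≤ ∑ _x ∈ univ.erase y₀, ν y₁ :=
          Finset.sum_le_sum fun x hx => hy₁m x (Finset.ne_of_mem_erase hx)
      _ ≤ ∑ _x : G, ν y₁ := Finset.sum_le_sum_of_subset_of_nonneg (Finset.erase_subset _ _)
          fun _ _ _ => hν.nonneg y₁
      _ = N * ν y₁ := by rw [Finset.sum_const, Finset.card_univ, nsmul_eq_mul]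
  have hs1 : t / N ≤ ν y₁ := by
    rw [div_le_iff₀ hN, mul_comm]
    exact htN
  have hs0 : t / N ≤ ν y₀ := hs1.trans (hy₀ y₁)
  have hsn : 0 ≤ t / N := by positivity
  have hpair := fun g : G => pair_bound μ ν hμ.nonneg hν.nonneg hν.total (Ne.symm hy₁) hsn hs0
    hs1 g
  have hsum := Finset.sum_le_sum fun g (_ : g ∈ univ) => hpair g
  rw [← Finset.mul_sum, Finset.sum_sub_distrib (fun g => E (conv μ ν g)), Finset.sum_const,
    Finset.card_univ, nsmul_eq_mul] at hsum
  change 2 * (t / N) * TT y₀ y₁ μ ≤ _ at hsum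
  have hT := h1 y₀ y₁ (Ne.symm hy₁) μ hμ.nonneg hμ.total hE
  have h2 : -Real.log (∑ x, ν x ^ 2) ≤ 2 * N * t := by
    have h3 : ν y₀ ^ 2 ≤ ∑ x, ν x ^ 2 :=
      Finset.single_le_sum (f := fun x => ν x ^ 2) (fun y _ => sq_nonneg _) (Finset.mem_univ y₀)
    have h4 := Real.log_le_log (by positivity) h3
    rw [Real.log_pow] at h4
    have h5 := Real.log_le_sub_one_of_pos (one_div_pos.2 hν0)
    rw [one_div, Real.log_inv] at h5
    have h6 : (ν y₀)⁻¹ - 1 ≤ N * t := by
      have h7 : (ν y₀)⁻¹ ≤ N := by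
        rw [inv_le_iff_one_le_mul₀ hν0]
        exact hone
      have h8 : (ν y₀)⁻¹ - 1 = (ν y₀)⁻¹ * t := by
        rw [ht, mul_sub, inv_mul_cancel₀ hν0.ne', mul_one]
      rw [h8]
      exact mul_le_mul_of_nonneg_right h7 ht0
    push_cast at h4
    linarith
  have h3 : 2 * (t / N) * c₁ ≤ 2 * (t / N) * TT y₀ y₁ μ :=
    mul_le_mul_of_nonneg_left hT (by positivity)
  have h4 : N * (c₁ / N ^ 3 * -Real.log (∑ x, ν x ^ 2)) ≤ 2 * (t / N) * c₁ := by
    calc N * (c₁ / N ^ 3 * -Real.log (∑ x, ν x ^ 2)) ≤ N * (c₁ / N ^ 3 * (2 * N * t)) := by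
          gcongr
      _ = 2 * (t / N) * c₁ := by
          field_simp
  rw [mul_add]
  linarith

end gen

/-- the collision entropy is nonnegative -/
theorem coll_nonneg {α : Type} [Fintype α] {ν : α → ℝ} (hν : IsLaw ν) :
    0 ≤ -Real.log (∑ x, ν x ^ 2) := by
  have h5 : ∑ x, ν x ^ 2 ≤ 1 := by
    rw [← hν.total]
    refine Finset.sum_le_sum fun x _ => ?_
    have h6 : ν x ≤ 1 := by
      rw [← hν.total]
      exact Finset.single_le_sum (fun y _ => hν.nonneg y) (Finset.mem_univ x)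
    have h7 := hν.nonneg x
    nlinarith
  have h6 : 0 ≤ ∑ x, ν x ^ 2 := Finset.sum_nonneg fun x _ => sq_nonneg _
  linarith [Real.log_nonpos h6 h5]

theorem LA_pos (n : ℕ) (hn : 5 ≤ n) : 0 < LA n := by
  have hG2 : 2 ≤ Fintype.card (alternatingGroup (Fin n)) := by
    have h1 := card_alt n (by omega)
    have h2 : (5 : ℕ) ≤ Nat.factorial n := le_trans hn (Nat.self_le_factorial n)
    have h3 : 2 * Fintype.card (alternatingGroup (Fin n)) = Nat.factorial n := by
      exact_mod_cast h1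
    omega
  unfold LA
  exact Real.log_pos (by exact_mod_cast hG2)

theorem small_alt (δ : ℝ) (hδ : 0 < δ) (N₀ : ℕ) : ∃ c : ℝ, 0 < c ∧ ∀ n : ℕ, 5 ≤ n → n ≤ N₀ →
    ∀ μ ν : alternatingGroup (Fin n) → ℝ, IsLaw μ → IsLaw ν → E μ ≤ (1 - δ) * LA n →
      Fintype.card (alternatingGroup (Fin n)) * (E μ + c * -Real.log (∑ x, ν x ^ 2)) ≤
        ∑ g, E (conv μ ν g) := by
  induction N₀ with
  | zero => exact ⟨1, one_pos, fun n h5 h0 => by omega⟩
  | succ N ih =>
    obtain ⟨c, hc, hcN⟩ := ih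
    by_cases h5 : 5 ≤ N + 1
    · have _ : IsSimpleGroup (alternatingGroup (Fin (N + 1))) :=
        alternatingGroup.isSimpleGroup (by simpa using h5)
      have hη : (1 - δ) * LA (N + 1) <
          Real.log (Fintype.card (alternatingGroup (Fin (N + 1)))) := by
        have h1 := LA_pos (N + 1) h5
        change (1 - δ) * LA (N + 1) < LA (N + 1)
        nlinarith
      obtain ⟨c', hc', hG⟩ := small_ent (G := alternatingGroup (Fin (N + 1))) hη
      refine ⟨min c c', lt_min hc hc', ?_⟩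
      intro n h5n hn μ ν hμ hν hE
      have hs := coll_nonneg hν
      have hG0 : (0 : ℝ) ≤ Fintype.card (alternatingGroup (Fin n)) := Nat.cast_nonneg _
      rcases hn.eq_or_lt with h | h
      · subst h
        refine le_trans (mul_le_mul_of_nonneg_left ?_ hG0) (hG μ ν hμ hν hE)
        have := mul_le_mul_of_nonneg_right (min_le_right c c') hs
        linarith
      · refine le_trans (mul_le_mul_of_nonneg_left ?_ hG0)
          (hcN n h5n (Nat.le_of_lt_succ h) μ ν hμ hν hE)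
        have := mul_le_mul_of_nonneg_right (min_le_left c c') hs
        linarith
    · exact ⟨c, hc, fun n h5n hn => by omega⟩

/-- **Entropy growth on the average**, for all alternating groups. -/
theorem entall (δ : ℝ) (hδ : 0 < δ) : ∃ ε : ℝ, 0 < ε ∧ ∀ n : ℕ, 5 ≤ n →
    ∀ μ ν : alternatingGroup (Fin n) → ℝ, IsLaw μ → IsLaw ν → E μ ≤ (1 - δ) * LA n →
      Fintype.card (alternatingGroup (Fin n)) * (E μ + ε * -Real.log (∑ x, ν x ^ 2)) ≤
        ∑ g, E (conv μ ν g) := by
  set δ' := min δ 1 with hδ'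
  have hδ0 : 0 < δ' := lt_min hδ one_pos
  have hδ1 : δ' ≤ 1 := min_le_right _ _
  obtain ⟨ε₁, hε₁, hbig⟩ := ent δ' hδ0 hδ1
  obtain ⟨c, hc, hsmall⟩ := small_alt δ hδ ⌈Real.exp (40 / δ')⌉₊
  set N₀ := ⌈Real.exp (40 / δ')⌉₊ with hN₀
  refine ⟨min ε₁ c, lt_min hε₁ hc, ?_⟩
  intro n hn μ ν hμ hν hE
  have hs := coll_nonneg hν
  have hG0 : (0 : ℝ) ≤ Fintype.card (alternatingGroup (Fin n)) := Nat.cast_nonneg _
  rcases Nat.lt_or_ge N₀ n with hlt | hge
  · have hlog : 40 / δ' ≤ Real.log n := by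
      have h1 : Real.exp (40 / δ') ≤ n := (Nat.le_ceil _).trans (by exact_mod_cast hlt.le)
      have h2 := Real.log_le_log (Real.exp_pos _) h1
      rwa [Real.log_exp] at h2
    have hD : H μ (fun x => x) ≤ (1 - δ') * LA n := by
      rw [H_id]
      refine hE.trans ?_
      exact mul_le_mul_of_nonneg_right (by linarith [min_le_left δ 1]) (LA_pos n hn).le
    have h1 := hbig n hlog μ ν hμ hν hD
    have h2 := eff_conv hμ hν
    change ∑ g, E (conv μ ν g) = _ at h2
    rw [h2]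
    refine mul_le_mul_of_nonneg_left ?_ hG0
    have h3 := mul_le_mul_of_nonneg_right (min_le_left ε₁ c) hs
    change _ ≤ eff μ (Model.pure ν hν) + E μ
    linarith
  · refine le_trans (mul_le_mul_of_nonneg_left ?_ hG0) (hsmall n hn hge μ ν hμ hν hE)
    have := mul_le_mul_of_nonneg_right (min_le_right ε₁ c) hs
    linarith

end Pool.Agent.Y574.AG
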